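import Pool.Agent.Lib.MP_d807e3_co.Mg.G007
import Pool.Agent.Lib.MP_d807e3_co.Plane

/-!
# The theorem in the plane (complete, not a task)
-/

set_option autoImplicit false

open Finset Classical

namespace Pool.Agent.TRD

open Pool.Agent.MP_d807e3_co

theorem sq_dist_two_lines {o u v : Plane} (hu : ‖u‖ = 1) (hv : ‖v‖ = 1) (x y : ℝ) :
    dist (o + x • u) (o + y • v) ^ 2 = x ^ 2 + y ^ 2 - 2 * (inner ℝ u v : ℝ) * x * y := by
  rw [dist_sq_eq, qf, real_inner_self_eq_norm_sq, real_inner_self_eq_norm_sq, hu, hv]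
  simp
  ring

theorem planar (o u v : Plane) (hu : ‖u‖ = 1) (hv : ‖v‖ = 1) (P Q : Finset Plane) (n t : ℕ)
    (hPn : P.card = n) (hQn : Q.card = n) (hP : ∀ p ∈ P, ∃ x : ℝ, p = o + x • u)
    (hQ : ∀ q ∈ Q, ∃ y : ℝ, q = o + y • v) (z : Fin t → ℝ)
    (hz : AlgebraicIndependent (IntermediateField.adjoin ℚ {(inner ℝ u v : ℝ)}) z)
    (hzPQ : ∀ i, o + z i • u ∈ P ∨ o + z i • v ∈ Q) :
    (n : ℝ) * t ≤ 4300 * (((distances P Q).card : ℝ) + n * Real.log n ^ 2) := by
  rcases Nat.eq_zero_or_pos n with h0 | hn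
  · subst h0
    simp only [Nat.cast_zero, zero_mul, add_zero]
    positivity
  set co : Plane → Plane → ℝ := fun w p => (inner ℝ w (p - o) : ℝ) with hco
  have hcoe : ∀ w : Plane, ‖w‖ = 1 → ∀ s : ℝ, co w (o + s • w) = s := by
    intro w hw s
    rw [hco]
    dsimp only
    rw [add_sub_cancel_left, inner_smul_right, real_inner_self_eq_norm_sq, hw]
    ring
  have hP' : ∀ p ∈ P, p = o + co u p • u := by
    intro p hp
    obtain ⟨s, hs⟩ := hP p hp
    rw [hs, hcoe u hu]
  have hQ' : ∀ q ∈ Q, q = o + co v q • v := by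
    intro q hq
    obtain ⟨s, hs⟩ := hQ q hq
    rw [hs, hcoe v hv]
  have hX : (P.image (co u)).card = n := by
    rw [← hPn]
    apply Finset.card_image_of_injOn
    intro q hq q' hq' heq
    rw [hP' q hq, hP' q' hq', heq]
  have hY : (Q.image (co v)).card = n := by
    rw [← hQn]
    apply Finset.card_image_of_injOn
    intro q hq q' hq' heq
    rw [hQ' q hq, hQ' q' hq', heq]
  have h1 := numbers (inner ℝ u v) (P.image (co u)) (Q.image (co v)) hn hX hY z hz (by
    intro i
    rcases hzPQ i with h | h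
    · left
      exact Finset.mem_image.2 ⟨_, h, hcoe u hu _⟩
    · right
      exact Finset.mem_image.2 ⟨_, h, hcoe v hv _⟩)
  have h2 : (((P.image (co u)) ×ˢ (Q.image (co v))).image
      (fun z => z.1 ^ 2 + z.2 ^ 2 - 2 * (inner ℝ u v : ℝ) * z.1 * z.2)).card ≤
      (distances P Q).card := by
    calc _ ≤ ((distances P Q).image (fun d => d ^ 2)).card := by
          apply Finset.card_le_card
          intro x hx
          obtain ⟨w, hw, rfl⟩ := Finset.mem_image.1 hx
          obtain ⟨hw1, hw2⟩ := Finset.mem_product.1 hw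
          obtain ⟨q, hq, hqw⟩ := Finset.mem_image.1 hw2
          obtain ⟨p, hp, hpw⟩ := Finset.mem_image.1 hw1
          refine Finset.mem_image.2 ⟨dist p q, ?_, ?_⟩
          · refine Finset.mem_image.2 ⟨(p, q), ?_, rfl⟩
            exact Finset.mem_product.2 ⟨hp, hq⟩
          · have e1 : p = o + w.1 • u := by rw [← hpw]; exact hP' p hp
            have e2 : q = o + w.2 • v := by rw [← hqw]; exact hQ' q hq
            rw [e1, e2]
            exact sq_dist_two_lines hu hv w.1 w.2
      _ ≤ (distances P Q).card := Finset.card_image_le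
  refine h1.trans ?_
  have h3 : ((((P.image (co u)) ×ˢ (Q.image (co v))).image
      (fun z => z.1 ^ 2 + z.2 ^ 2 - 2 * (inner ℝ u v : ℝ) * z.1 * z.2)).card : ℝ) ≤
      ((distances P Q).card : ℝ) := by exact_mod_cast h2
  linarith

end Pool.Agent.TRD
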